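import Pool.Agent.Helper76.TC.Goals

/-!
# Project TC, packet LV
-/

set_option autoImplicit false

open Set Topology

namespace Pool.Agent.Helper17.TC.LV

open Pool.Agent.Helper76.TC
open Pool.Agent.Helper50.CT (rv Cov Sh)

theorem t : Pool.Agent.Helper76.TC.S_LV := by
  intro n A X T _ _ _ π hC hT y z τ h0 h1
  have hle : ∀ x w : X, dist (π x) (π w) ≤ dist x w := by
    intro x w
    have := hC.le x w 0
    rwa [zero_vadd] at this
  have hπ : Continuous π := by
    have : LipschitzWith 1 π := LipschitzWith.of_dist_le_mul fun x w => by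
      simpa using hle x w
    exact this.continuous
  obtain ⟨γ, -⟩ := hT y z
  have hf : Continuous fun t => dist (π y) (π (γ t)) :=
    continuous_const.dist (hπ.comp γ.continuous)
  obtain ⟨t, ht⟩ : τ ∈ range fun t => dist (π y) (π (γ t)) := by
    refine mem_range_of_exists_le_of_exists_ge hf ⟨0, ?_⟩ ⟨1, ?_⟩
    · simpa using h0
    · simpa using h1
  obtain ⟨k, hk⟩ := hC.lift y (γ t)
  have ht' : dist (π y) (π (γ t)) = τ := ht
  exact ⟨k +ᵥ γ t, by rw [hk, ht'], by rw [hC.inv, ht']⟩

end Pool.Agent.Helper17.TC.LV
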